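import Mathlib
import Pool.Agent.X115.Dec.Main

/-!
# Relative Lehmer inequality: products over embeddings
-/

set_option autoImplicit false

open Polynomial IntermediateField Module Pool.Agent.X115.Dec

namespace Pool.Agent.X115.RelC

/-- products over all embeddings of a number field -/
lemma prod_emb {E : Type*} [Field E] [NumberField E] {M : Type*} [CommMonoid M] (x : E)
    (F : ℂ → M) :
    ∏ σ : E →ₐ[ℚ] ℂ, F (σ x) =
      ((((minpoly ℚ x).aroots ℂ).map F).prod) ^ Module.finrank ℚ⟮x⟯ E := by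
  classical
  have hgen : algebraMap ℚ⟮x⟯ E (AdjoinSimple.gen ℚ x) = x := AdjoinSimple.algebraMap_gen ℚ x
  have h1 : ∏ σ : E →ₐ[ℚ] ℂ, F (σ x) =
      (∏ τ : ℚ⟮x⟯ →ₐ[ℚ] ℂ, F (τ (AdjoinSimple.gen ℚ x))) ^ Module.finrank ℚ⟮x⟯ E := by
    rw [Fintype.prod_equiv algHomEquivSigma (fun σ : E →ₐ[ℚ] ℂ => F (σ x))
        (fun σ => F (σ.1 (AdjoinSimple.gen ℚ x))), ← Finset.univ_sigma_univ, Finset.prod_sigma,
        ← Finset.prod_pow]
    · refine Finset.prod_congr rfl fun σ _ => ?_
      let : Algebra ℚ⟮x⟯ ℂ := σ.toRingHom.toAlgebra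
      simp_rw [Finset.prod_const]
      congr
      exact AlgHom.card ℚ⟮x⟯ E ℂ
    · intro σ
      simp only [algHomEquivSigma, Equiv.coe_fn_mk, AlgHom.domRestrict, AlgHom.comp_apply,
        IsScalarTower.coe_toAlgHom']
      rw [hgen]
  rw [h1]
  congr 1
  have hint : IsIntegral ℚ x := Algebra.IsIntegral.isIntegral x
  have hcinj : Function.Injective fun τ : ℚ⟮x⟯ →ₐ[ℚ] ℂ => τ (AdjoinSimple.gen ℚ x) := by
    intro σ τ h
    apply adjoin_algHom_ext ℚ (s := {x})
    intro y hy
    rw [Set.mem_singleton_iff] at hy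
    subst hy
    exact h
  have hmin : minpoly ℚ x = minpoly ℚ (AdjoinSimple.gen ℚ x) := (minpoly_gen ℚ x).symm
  have hnd : ((minpoly ℚ x).aroots ℂ).Nodup :=
    nodup_roots (show (minpoly ℚ x).Separable from Algebra.IsSeparable.isSeparable ℚ x).map
  have h2 : (minpoly ℚ x).aroots ℂ = (Finset.univ : Finset (ℚ⟮x⟯ →ₐ[ℚ] ℂ)).val.map
      (fun τ => τ (AdjoinSimple.gen ℚ x)) := by
    rw [Multiset.Nodup.ext hnd]
    · intro z
      have : NumberField ℚ⟮x⟯ := { to_charZero := inferInstance, to_finiteDimensional := inferInstance }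
      have h3 := (NumberField.isAlgebraic ℚ⟮x⟯).range_eval_eq_rootSet_minpoly ℂ (AdjoinSimple.gen ℚ x)
      rw [← hmin] at h3
      have h4 : z ∈ (minpoly ℚ x).rootSet ℂ ↔ z ∈ (minpoly ℚ x).aroots ℂ := by
        rw [Polynomial.rootSet_def, Finset.mem_coe, Multiset.mem_toFinset]
      rw [← h4, ← h3]
      simp
    · exact (Multiset.nodup_map_iff_of_injective hcinj).mpr Finset.univ.nodup
  rw [h2, Multiset.map_map, Finset.prod_eq_multiset_prod]
  rfl

/-- `c` is an algebraic number in a totally real field or a CM field, stated as: complex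
conjugation commutes with all embeddings, at `c` -/
def IsCM (c : ℂ) : Prop := ∀ (E : IntermediateField ℚ ℂ) (_ : FiniteDimensional ℚ E) (h : c ∈ E)
  (h' : starRingEnd ℂ c ∈ E) (σ : E →ₐ[ℚ] ℂ), σ ⟨starRingEnd ℂ c, h'⟩ = starRingEnd ℂ (σ ⟨c, h⟩)

lemma prod_mem_IS' {ι : Type*} (B : Finset ι) (w : ι → ℂ) (R : ι → Multiset ℂ)
    (h : ∀ b ∈ B, w b ∈ IS (R b)) : ∏ b ∈ B, w b ∈ IS (∑ b ∈ B, R b) := by
  classical
  induction B using Finset.induction_on with
  | empty => simpa using one_mem_IS 0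
  | insert b B hb ih =>
    rw [Finset.prod_insert hb, Finset.sum_insert hb]
    exact mul_mem_IS (h b (Finset.mem_insert_self _ _))
      (ih fun c hc => h c (Finset.mem_insert_of_mem hc))

lemma PP_sum' {ι : Type*} (B : Finset ι) (R : ι → Multiset ℂ) :
    PP (∑ b ∈ B, R b) = ∏ b ∈ B, PP (R b) := by
  classical
  induction B using Finset.induction_on with
  | empty => simp [PP]
  | insert b B hb ih => rw [Finset.prod_insert hb, Finset.sum_insert hb, PP_add, ih]

lemma PP_conj (R : Multiset ℂ) : PP (R.map (starRingEnd ℂ)) = (PP R).map (starRingEnd ℂ) := by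
  unfold PP
  rw [Polynomial.map_multiset_prod, Multiset.map_map, Multiset.map_map]
  congr 1
  apply Multiset.map_congr rfl
  intro a _
  simp

/-- the roots of an irreducible integer polynomial as the roots of the minimal polynomial -/
lemma aroots_minpoly {E : Type*} [Field E] [NumberField E] {f : ℤ[X]} (hf : Irreducible f)
    {x : E} (hx : aeval x f = 0) :
    (minpoly ℚ x).aroots ℂ = (f.map (Int.castRingHom ℂ)).roots ∧
      finrank ℚ⟮x⟯ E * f.natDegree = finrank ℚ E := by
  have hf0 : f ≠ 0 := hf.ne_zero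
  have hd : f.natDegree ≠ 0 := by
    intro h
    rw [natDegree_eq_zero] at h
    obtain ⟨c, rfl⟩ := h
    rw [aeval_C] at hx
    have : (c : ℤ) = 0 := by
      have h2 : algebraMap ℤ E c = algebraMap ℤ E 0 := by rw [hx, map_zero]
      exact (algebraMap ℤ E).injective_int h2
    exact hf0 (by rw [this, C_0])
  have hprim : f.IsPrimitive := hf.isPrimitive hd
  have hirr : Irreducible (f.map (Int.castRingHom ℚ)) :=
    (Polynomial.IsPrimitive.Int.irreducible_iff_irreducible_map_cast hprim).mp hf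
  have hx' : aeval x (f.map (Int.castRingHom ℚ)) = 0 := by
    have : f.map (Int.castRingHom ℚ) = f.map (algebraMap ℤ ℚ) := rfl
    rw [this, aeval_map_algebraMap, hx]
  have hmin := minpoly.eq_of_irreducible hirr hx'
  have hl : (f.map (Int.castRingHom ℚ)).leadingCoeff⁻¹ ≠ 0 :=
    inv_ne_zero (leadingCoeff_ne_zero.2 hirr.ne_zero)
  constructor
  · rw [Polynomial.aroots_def, ← hmin, mul_comm, Polynomial.map_mul, Polynomial.map_C,
      roots_C_mul _ (by simpa using hl), Polynomial.map_map]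
    rfl
  · have h1 : finrank ℚ ℚ⟮x⟯ = f.natDegree := by
      rw [adjoin.finrank (Algebra.IsIntegral.isIntegral x), ← hmin, natDegree_mul_C hl,
        natDegree_map_eq_of_injective (Int.castRingHom ℚ).injective_int]
    rw [← h1, mul_comm]
    exact finrank_mul_finrank ℚ ℚ⟮x⟯ E

end Pool.Agent.X115.RelC
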