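import Mathlib
import Pool.Agent.X115.RelC.A

/-!
# Relative Lehmer inequality: the main inequality
-/

set_option autoImplicit false

open Polynomial IntermediateField Module Pool.Agent.X115.Dec

namespace Pool.Agent.X115.RelC

lemma exists_lift (E : IntermediateField ℚ ℂ) (R : Multiset ℂ) (h : ∀ z ∈ R, z ∈ E) :
    ∃ S : Multiset E, S.map (fun x : E => (x : ℂ)) = R :=
  ⟨R.pmap (fun z hz => (⟨z, hz⟩ : E)) h, by
    rw [Multiset.map_pmap, Multiset.pmap_eq_map]; simp⟩

/-- the polynomial with given zeros -/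
noncomputable def PS {K : Type*} [CommRing K] (S : Multiset K) : K[X] := (S.map (fun a => X - C a)).prod

lemma PS_map {K K' : Type*} [CommRing K] [CommRing K'] (g : K →+* K') (S : Multiset K) :
    (PS S).map g = PS (S.map g) := by
  unfold PS
  rw [Polynomial.map_multiset_prod, Multiset.map_map, Multiset.map_map]
  congr 1
  apply Multiset.map_congr rfl
  intro a _
  simp

lemma PP_eq_PS (R : Multiset ℂ) : PP R = PS R := rfl

/-- the sum form of the inequality -/
lemma sum_form {ι : Type*} [Fintype ι] (w U V : ι → ℝ) (hw : ∀ i, 0 < w i) (hU : ∀ i, 0 < U i)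
    (hV : ∀ i, 0 < V i) (h : ∀ i, w i ≤ U i ^ 2 - V i ^ 2) :
    pw * ∑ i, Real.log (w i) + 2 * qw * ∑ i, Real.log (V i) +
      Fintype.card ι * ((1 + qw) * Real.log Real.goldenRatio) ≤ 2 * ∑ i, Real.log (U i) := by
  have h1 := Finset.sum_le_sum fun i (_ : i ∈ Finset.univ) => one_factor (hw i) (hU i) (hV i) (h i)
  rw [Finset.sum_add_distrib, Finset.sum_add_distrib, Finset.sum_const, Finset.card_univ,
    nsmul_eq_mul, ← Finset.mul_sum, ← Finset.mul_sum, ← Finset.mul_sum] at h1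
  exact h1

theorem main (L : IntermediateField ℚ ℂ) {α : ℂ} {f : ℤ[X]} (hf : Irreducible f)
    (hα : aeval α f = 0) (h0 : α ≠ 0) (k : ℕ) (hk1 : 1 ≤ k) (hkD : k ≤ (minpoly L α).natDegree)
    (hcm : ∀ j, 1 ≤ j → j ≤ k →
      IsCM (((minpoly L α).coeff ((minpoly L α).natDegree - j) : L) : ℂ))
    (hne : (((minpoly L α).coeff k : L) : ℂ) ≠
      starRingEnd ℂ (((minpoly L α).coeff ((minpoly L α).natDegree - k) : L) : ℂ) *
        (((minpoly L α).coeff 0 : L) : ℂ)) :
    f.natDegree * ((1 + qw) * Real.log Real.goldenRatio) +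
        2 * qw * ((minpoly L α).natDegree *
          (Real.log |(f.leadingCoeff : ℝ)| + Real.log |(f.coeff 0 : ℝ)|)) ≤
      2 * (1 + qw) * ((minpoly L α).natDegree *
        Real.log (f.map (Int.castRingHom ℂ)).mahlerMeasure) := by
  classical
  have hf0 : f ≠ 0 := hf.ne_zero
  have hinj : Function.Injective (Int.castRingHom ℂ) := RingHom.injective_int _
  set fC := f.map (Int.castRingHom ℂ) with hfC
  have hfC0 : fC ≠ 0 := (Polynomial.map_ne_zero_iff hinj).2 hf0
  have haevC : ∀ z : ℂ, aeval z f = 0 ↔ z ∈ fC.roots := by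
    intro z
    rw [mem_roots hfC0, IsRoot.def, hfC, eval_map]
    rfl
  -- the constant coefficient
  have hc0 : f.coeff 0 ≠ 0 := by
    intro h
    obtain ⟨q, hq⟩ := X_dvd_iff.2 h
    rcases hf.isUnit_or_isUnit hq with h1 | h1
    · exact not_isUnit_X h1
    · rw [hq, map_mul, aeval_X] at hα
      rcases mul_eq_zero.1 hα with h2 | h2
      · exact h0 h2
      · obtain ⟨c, hc, rfl⟩ := isUnit_iff.1 h1
        rw [aeval_C] at h2
        have h3 : algebraMap ℤ ℂ c = algebraMap ℤ ℂ 0 := by rw [h2, map_zero]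
        exact hc.ne_zero ((algebraMap ℤ ℂ).injective_int h3)
  have hlc : f.leadingCoeff ≠ 0 := leadingCoeff_ne_zero.2 hf0
  set a : ℂ := (f.leadingCoeff : ℂ) with ha
  have ha0 : a ≠ 0 := by rw [ha]; exact_mod_cast hlc
  have hfCPP : fC = C a * PP fC.roots := by
    have h1 := (IsAlgClosed.splits fC).eq_prod_roots
    rw [hfC, leadingCoeff_map_of_injective hinj] at h1
    exact h1
  set RF := fC.roots with hRF
  have hRF0 : ∀ z ∈ RF, z ≠ 0 := by
    rintro z hz rfl
    have h1 := (haevC 0).2 hz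
    rw [← coeff_zero_eq_aeval_zero'] at h1
    apply hc0
    have h2 : algebraMap ℤ ℂ (f.coeff 0) = algebraMap ℤ ℂ 0 := by rw [h1, map_zero]
    exact (algebraMap ℤ ℂ).injective_int h2
  have hQalg : ∀ z : ℂ, aeval z f = 0 → IsAlgebraic ℚ z := fun z hz =>
    ⟨f.map (algebraMap ℤ ℚ), (Polynomial.map_ne_zero_iff (algebraMap ℤ ℚ).injective_int).2 hf0,
      by rw [aeval_map_algebraMap, hz]⟩
  -- the minimal polynomial over `L`
  set pL := minpoly L α with hpL
  have hαL : IsIntegral L α := by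
    exact (hQalg α hα).isIntegral.tower_top
  have hpm : pL.Monic := minpoly.monic hαL
  set D := pL.natDegree with hD
  set pC := pL.map (algebraMap L ℂ) with hpC
  have hpCm : pC.Monic := hpm.map _
  set RP := pC.roots with hRP
  have hpCPP : pC = PP RP := (IsAlgClosed.splits pC).eq_prod_roots_of_monic hpCm
  have hcard : Multiset.card RP = D := by
    rw [← PP_natDegree, ← hpCPP, hpC, hpm.natDegree_map]
  have hdvd : pL ∣ f.map (algebraMap ℤ L) := by
    apply minpoly.dvd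
    rw [aeval_map_algebraMap]
    exact hα
  have hRPf : ∀ z ∈ RP, aeval z f = 0 := by
    intro z hz
    obtain ⟨q, hq⟩ := hdvd
    have h1 : aeval z (f.map (algebraMap ℤ L)) = 0 := by
      rw [hq, map_mul]
      have h2 : aeval z pL = 0 := by
        have h3 := (mem_roots hpCm.ne_zero).1 hz
        rw [IsRoot.def, hpC, eval_map_algebraMap] at h3
        exact h3
      rw [h2, zero_mul]
    rwa [aeval_map_algebraMap] at h1
  -- the field generated by all conjugates
  set E := IntermediateField.adjoin ℚ (f.rootSet ℂ) with hE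
  have hfin : FiniteDimensional ℚ E := by
    have : Finite (f.rootSet ℂ) := (rootSet_finite f ℂ).to_subtype
    refine IntermediateField.finiteDimensional_adjoin fun z hz => ?_
    exact (hQalg z (mem_rootSet.mp hz).2).isIntegral
  have hNF : NumberField E := { to_charZero := inferInstance, to_finiteDimensional := hfin }
  have hmemE : ∀ z : ℂ, aeval z f = 0 → z ∈ E := fun z hz =>
    IntermediateField.subset_adjoin ℚ _ (mem_rootSet.2 ⟨hf0, hz⟩)
  have hconj : ∀ z : ℂ, aeval z f = 0 → aeval (starRingEnd ℂ z) f = 0 := by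
    intro z hz
    have h1 := congrArg (starRingEnd ℂ) hz
    rw [map_zero, aeval_def, hom_eval₂] at h1
    rw [aeval_def]
    convert h1 using 2
    ext n
    simp
  obtain ⟨S, hS⟩ := exists_lift E RP fun z hz => hmemE z (hRPf z hz)
  obtain ⟨S', hS'⟩ := exists_lift E (RP.map (starRingEnd ℂ)) fun z hz => by
    obtain ⟨y, hy, rfl⟩ := Multiset.mem_map.1 hz
    exact hmemE _ (hconj y (hRPf y hy))
  have hSf : ∀ s ∈ S, aeval s f = 0 := by
    intro s hs
    have h1 : (s : ℂ) ∈ RP := by rw [← hS]; exact Multiset.mem_map_of_mem _ hs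
    have h2 := hRPf _ h1
    have h3 : aeval (algebraMap E ℂ s) f = 0 := h2
    rw [aeval_algebraMap_apply] at h3
    exact (algebraMap E ℂ).injective (by rw [h3, map_zero])
  set PE : E[X] := PS S with hPE
  set PE' : E[X] := PS S' with hPE'
  have hPEc : ∀ i, ((PE.coeff i : E) : ℂ) = ((pL.coeff i : L) : ℂ) := by
    intro i
    have h1 : PE.map (algebraMap E ℂ) = pC := by
      rw [hPE, PS_map, hpCPP, PP_eq_PS]
      congr 1
    have h2 := congrArg (fun q : ℂ[X] => q.coeff i) h1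
    simp only [coeff_map, hpC] at h2
    exact h2
  have hPEc' : ∀ i, ((PE'.coeff i : E) : ℂ) = starRingEnd ℂ ((pL.coeff i : L) : ℂ) := by
    intro i
    have h1 : PE'.map (algebraMap E ℂ) = pC.map (starRingEnd ℂ) := by
      rw [hPE', PS_map, hpCPP, ← PP_conj, PP_eq_PS]
      congr 1
    have h2 := congrArg (fun q : ℂ[X] => q.coeff i) h1
    simp only [coeff_map, hpC] at h2
    exact h2
  -- the conjugates of the minimal polynomial
  let R : (E →ₐ[ℚ] ℂ) → Multiset ℂ := fun σ => S.map σ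
  have hRc : ∀ σ, Multiset.card (R σ) = D := by
    intro σ
    simp only [R, Multiset.card_map]
    rw [← hcard, ← hS, Multiset.card_map]
  have hPR : ∀ (σ : E →ₐ[ℚ] ℂ) i, (PP (R σ)).coeff i = σ (PE.coeff i) := by
    intro σ i
    have h1 : PP (R σ) = PE.map (σ : E →+* ℂ) := by
      rw [hPE, PS_map, PP_eq_PS]
      rfl
    rw [h1, coeff_map]
    rfl
  have hR0 : ∀ (σ : E →ₐ[ℚ] ℂ), ∀ z ∈ R σ, z ∈ RF := by
    intro σ z hz
    obtain ⟨s, hs, rfl⟩ := Multiset.mem_map.1 hz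
    have h1 := aeval_algHom_apply (σ.restrictScalars ℤ) s f
    rw [hSf s hs, map_zero] at h1
    rw [← haevC]
    exact h1
  have hcm' : ∀ (σ : E →ₐ[ℚ] ℂ) j, 1 ≤ j → j ≤ k →
      σ (PE'.coeff (D - j)) = starRingEnd ℂ (σ (PE.coeff (D - j))) := by
    intro σ j hj1 hj2
    have h1 : (((pL.coeff (D - j) : L)) : ℂ) ∈ E := by rw [← hPEc]; exact SetLike.coe_mem _
    have h2 : starRingEnd ℂ (((pL.coeff (D - j) : L)) : ℂ) ∈ E := by
      rw [← hPEc']; exact SetLike.coe_mem _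
    have h3 := hcm j hj1 hj2 E hfin h1 h2 σ
    have e1 : (⟨_, h1⟩ : E) = PE.coeff (D - j) := Subtype.ext (hPEc _).symm
    have e2 : (⟨_, h2⟩ : E) = PE'.coeff (D - j) := Subtype.ext (hPEc' _).symm
    rw [e1, e2] at h3
    exact h3
  let w : ℕ → E := fun i => PE.coeff i - PE.coeff 0 * PE'.coeff (D - i)
  have hw : ∀ (σ : E →ₐ[ℚ] ℂ) i, 1 ≤ i → i ≤ k →
      (PP (R σ) - C ((PP (R σ)).coeff 0) * QQ (R σ)).coeff i = σ (w i) := by
    intro σ i h1 h2
    rw [coeff_sub, coeff_C_mul, QQ_coeff _ (by rw [hRc]; omega), hRc, hPR, hPR, hPR,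
      ← hcm' σ i h1 h2]
    simp only [w, map_sub, map_mul]
  have hex : ∃ i, 1 ≤ i ∧ i ≤ k ∧ w i ≠ 0 := by
    refine ⟨k, hk1, le_rfl, fun h => hne ?_⟩
    have h1 : ((w k : E) : ℂ) = 0 := by rw [h]; rfl
    simp only [w] at h1
    have h2 : ((PE.coeff k : E) : ℂ) - ((PE.coeff 0 : E) : ℂ) * ((PE'.coeff (D - k) : E) : ℂ) = 0 := h1
    rw [hPEc, hPEc, hPEc'] at h2
    rw [sub_eq_zero.1 h2, mul_comm]
  let J := Nat.find hex
  obtain ⟨hJ1, hJk, hJ0⟩ := Nat.find_spec hex
  have hJmin : ∀ i, i < J → 1 ≤ i → w i = 0 := by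
    intro i hi h1
    by_contra h
    exact Nat.find_min hex hi ⟨h1, by omega, h⟩
  have hlocal : ∀ σ : E →ₐ[ℚ] ℂ, ‖σ (w J)‖ ≤ UU (R σ) ^ 2 - VV (R σ) ^ 2 := by
    intro σ
    have h1 := local_bound (R σ) (fun z hz => hRF0 z (hR0 σ z hz)) J (by omega) (fun i hi => by
      rcases Nat.eq_zero_or_pos i with rfl | hpos
      · rw [coeff_sub, coeff_C_mul, QQ_zero, mul_one, sub_self]
      · rw [hw σ i hpos (by omega), hJmin i hi hpos, map_zero])
    rwa [hw σ J hJ1 hJk] at h1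
  -- products over the embeddings
  have hN : f.natDegree ≠ 0 := by
    intro h
    rw [natDegree_eq_zero] at h
    obtain ⟨c, rfl⟩ := h
    rw [aeval_C] at hα
    have h3 : algebraMap ℤ ℂ c = algebraMap ℤ ℂ 0 := by rw [hα, map_zero]
    exact hf0 (by rw [(algebraMap ℤ ℂ).injective_int h3, C_0])
  set N := f.natDegree with hNdef
  set n := finrank ℚ E with hn
  set e := n / N with he
  have hes : ∀ s ∈ S, (minpoly ℚ s).aroots ℂ = RF ∧ finrank ℚ⟮s⟯ E = e := by
    intro s hs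
    obtain ⟨h1, h2⟩ := aroots_minpoly hf (hSf s hs)
    refine ⟨h1, ?_⟩
    rw [he, hn, ← h2, Nat.mul_div_cancel _ (Nat.pos_of_ne_zero hN)]
  have hD0 : 0 < D := by omega
  have hSne : ∃ s, s ∈ S := by
    apply Multiset.exists_mem_of_ne_zero
    intro h
    rw [h] at hS
    rw [← hS] at hcard
    simp at hcard
    omega
  have heN : e * N = n := by
    obtain ⟨s, hs⟩ := hSne
    rw [← (hes s hs).2]
    exact (aroots_minpoly hf (hSf s hs)).2
  have hnpos : 0 < n := finrank_pos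
  have hepos : 0 < e := by
    rcases Nat.eq_zero_or_pos e with h | h
    · rw [h, zero_mul] at heN; omega
    · exact h
  have key : ∀ {M : Type} [CommMonoid M] (F : ℂ → M),
      ∏ σ : E →ₐ[ℚ] ℂ, ((R σ).map F).prod = ((RF.map F).prod) ^ (e * D) := by
    intro M _ F
    have h1 : ∏ σ : E →ₐ[ℚ] ℂ, ((R σ).map F).prod =
        (S.map fun s => ∏ σ : E →ₐ[ℚ] ℂ, F (σ s)).prod := by
      simp only [R, Multiset.map_map, Finset.prod_eq_multiset_prod, Function.comp_def]
      exact Multiset.prod_map_prod_map _ _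
    have h2 : (S.map fun s => ∏ σ : E →ₐ[ℚ] ℂ, F (σ s)) =
        S.map fun _ => ((RF.map F).prod) ^ e := by
      apply Multiset.map_congr rfl
      intro s hs
      rw [prod_emb s F, (hes s hs).1, (hes s hs).2]
    rw [h1, h2, Multiset.map_const', Multiset.prod_replicate, ← pow_mul]
    have h3 : Multiset.card S = D := by rw [← hcard, ← hS, Multiset.card_map]
    rw [h3]
  have hU0 : ∀ X : Multiset ℂ, 0 < UU X := fun X => lt_of_lt_of_le one_pos (UU_ge X)
  have hRne : ∀ (σ : E →ₐ[ℚ] ℂ), ∀ z ∈ R σ, z ≠ 0 := fun σ z hz => hRF0 z (hR0 σ z hz)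
  have hV0 : ∀ σ : E →ₐ[ℚ] ℂ, 0 < VV (R σ) := fun σ => VV_pos _ (hRne σ)
  set NF : ℝ := (RF.map (fun z => ‖z‖)).prod with hNFdef
  have hNF0 : 0 < NF := by
    rw [hNFdef, ← UU_mul_VV]
    exact mul_pos (hU0 _) (VV_pos _ hRF0)
  have hna : ‖a‖ = |(f.leadingCoeff : ℝ)| := by rw [ha, Complex.norm_intCast]
  have hna0 : 0 < ‖a‖ := norm_pos_iff.2 ha0
  have hMa : fC.mahlerMeasure = ‖a‖ * UU RF := by
    rw [hfCPP, mahlerMeasure_mul, mahlerMeasure_const, mahler_PP]
  have hc : |(f.coeff 0 : ℝ)| = ‖a‖ * NF := by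
    have h1 : ‖fC.coeff 0‖ = |(f.coeff 0 : ℝ)| := by
      rw [hfC, coeff_map, eq_intCast, Complex.norm_intCast]
    rw [← h1, hfCPP, coeff_C_mul, norm_mul, norm_PP_zero]
  have sU : ∑ σ : E →ₐ[ℚ] ℂ, Real.log (UU (R σ)) = (e * D : ℕ) * Real.log (UU RF) := by
    rw [← Real.log_prod (fun σ _ => (hU0 _).ne'), ← Real.log_pow]
    congr 1
    exact key (fun z => max 1 ‖z‖)
  have sN : ∑ σ : E →ₐ[ℚ] ℂ, Real.log (UU (R σ) * VV (R σ)) = (e * D : ℕ) * Real.log NF := by
    rw [← Real.log_prod (fun σ _ => (mul_pos (hU0 _) (hV0 σ)).ne'), ← Real.log_pow]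
    congr 1
    simp_rw [UU_mul_VV]
    exact key (fun z => ‖z‖)
  have sV : ∑ σ : E →ₐ[ℚ] ℂ, Real.log (VV (R σ)) = (e * D : ℕ) * Real.log NF -
      (e * D : ℕ) * Real.log (UU RF) := by
    rw [← sN, ← sU, ← Finset.sum_sub_distrib]
    refine Finset.sum_congr rfl fun σ _ => ?_
    rw [Real.log_mul (hU0 _).ne' (hV0 σ).ne']
    ring
  -- the norm of `w J`
  set x : ℂ := ∏ σ : E →ₐ[ℚ] ℂ, σ (w J) with hx
  have hw0 : ∀ σ : E →ₐ[ℚ] ℂ, σ (w J) ≠ 0 := fun σ =>
    (map_ne_zero_iff σ σ.toRingHom.injective).2 hJ0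
  have hPPconj : (PP RF).map (starRingEnd ℂ) = PP RF := by
    have h1 : fC.map (starRingEnd ℂ) = fC := by
      rw [hfC, Polynomial.map_map]
      congr 1
      exact RingHom.ext_int _ _
    rw [hfCPP, Polynomial.map_mul, map_C] at h1
    have h2 : starRingEnd ℂ a = a := by rw [ha, map_intCast]
    rw [h2] at h1
    exact mul_left_cancel₀ (C_ne_zero.2 ha0) h1
  have hint : IsIntegral ℤ (a ^ (2 * (e * D)) * x) := by
    apply integral_mem (R := ∑ σ : E →ₐ[ℚ] ℂ, (R σ + (R σ).map (starRingEnd ℂ)))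
    · intro i
      have h1 : C (a ^ (2 * (e * D))) * PP (∑ σ : E →ₐ[ℚ] ℂ, (R σ + (R σ).map (starRingEnd ℂ))) =
          (f ^ (2 * (e * D))).map (Int.castRingHom ℂ) := by
        rw [PP_sum']
        simp_rw [PP_add, PP_conj]
        rw [Finset.prod_mul_distrib, ← Polynomial.map_prod]
        have h2 : ∏ σ : E →ₐ[ℚ] ℂ, PP (R σ) = (PP RF) ^ (e * D) := key (fun z => X - C z)
        rw [h2, Polynomial.map_pow, hPPconj, Polynomial.map_pow, ← hfC, hfCPP, mul_pow, C_pow]
        ring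
      rw [h1, coeff_map]
      exact isIntegral_algebraMap (R := ℤ) (A := ℂ)
    · apply prod_mem_IS'
      intro σ _
      rw [← hw σ J hJ1 hJk, coeff_sub, coeff_C_mul, QQ_coeff _ (by rw [hRc]; omega), hRc]
      apply AddSubgroup.sub_mem
      · exact IS_mono (Multiset.le_add_right _ _) (coeff_PP_mem _ _)
      · apply mul_mem_IS (coeff_PP_mem _ _)
        have h1 : starRingEnd ℂ ((PP (R σ)).coeff (D - J)) =
            (PP ((R σ).map (starRingEnd ℂ))).coeff (D - J) := by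
          rw [PP_conj, coeff_map]
        rw [h1]
        exact coeff_PP_mem _ _
  have hxr : x = ((Algebra.norm ℚ (w J) : ℚ) : ℂ) := by
    have h1 := Algebra.norm_eq_prod_embeddings ℚ ℂ (w J)
    rw [hx, ← h1]
    rfl
  have hxn : 1 ≤ ‖a ^ (2 * (e * D)) * x‖ := by
    have h1 : a ^ (2 * (e * D)) * x =
        (((f.leadingCoeff : ℚ) ^ (2 * (e * D)) * Algebra.norm ℚ (w J) : ℚ) : ℂ) := by
      rw [hxr, ha]
      push_cast
      ring
    rw [h1] at hint ⊢
    refine one_le_of_integral ?_ hint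
    exact mul_ne_zero (pow_ne_zero _ (by exact_mod_cast hlc)) (Algebra.norm_ne_zero_iff.2 hJ0)
  have sW : -(2 * (e * D : ℕ) * Real.log ‖a‖) ≤ ∑ σ : E →ₐ[ℚ] ℂ, Real.log ‖σ (w J)‖ := by
    rw [← Real.log_prod (fun σ _ => norm_ne_zero_iff.2 (hw0 σ)), ← norm_prod, ← hx]
    have hx0 : x ≠ 0 := Finset.prod_ne_zero_iff.2 fun σ _ => hw0 σ
    have h1 := Real.log_nonneg hxn
    rw [norm_mul, norm_pow, Real.log_mul (pow_ne_zero _ hna0.ne') (norm_ne_zero_iff.2 hx0),
      Real.log_pow] at h1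
    push_cast at h1 ⊢
    linarith
  have hmain := sum_form (fun σ : E →ₐ[ℚ] ℂ => ‖σ (w J)‖) (fun σ => UU (R σ)) (fun σ => VV (R σ))
    (fun σ => norm_pos_iff.2 (hw0 σ)) (fun σ => hU0 _) hV0 hlocal
  rw [sU, sV, AlgHom.card, ← hn, ← heN] at hmain
  rw [hMa, hc, ← hna, Real.log_mul hna0.ne' (hU0 _).ne', Real.log_mul hna0.ne' hNF0.ne']
  have hpq : pw = 1 - qw := by unfold pw qw; ring
  have h9 := mul_le_mul_of_nonneg_left sW pw_pos.le
  have he0 : (0 : ℝ) < e := by exact_mod_cast hepos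
  have hfin' : (e : ℝ) * (N * ((1 + qw) * Real.log Real.goldenRatio) +
        2 * qw * (D * (Real.log ‖a‖ + (Real.log ‖a‖ + Real.log NF)))) ≤
      e * (2 * (1 + qw) * (D * (Real.log ‖a‖ + Real.log (UU RF)))) := by
    push_cast at hmain h9
    rw [hpq] at hmain h9
    nlinarith [hmain, h9]
  exact le_of_mul_le_mul_left hfin' he0

end Pool.Agent.X115.RelC
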