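import Mathlib
import Pool.Agent.X115.RelC.B

/-!
# Relative Lehmer inequality: CM numbers, traces, final form
-/

set_option autoImplicit false

open Polynomial IntermediateField Module Pool.Agent.X115.Dec

namespace Pool.Agent.X115.RelC

/-- embeddings extend to finite extensions -/
lemma extend {E E' : IntermediateField ℚ ℂ} (h : E ≤ E') [FiniteDimensional ℚ E']
    (σ : E →ₐ[ℚ] ℂ) : ∃ σ' : E' →ₐ[ℚ] ℂ, ∀ (x : ℂ) (hx : x ∈ E), σ' ⟨x, h hx⟩ = σ ⟨x, hx⟩ := by
  let : Algebra E E' := (inclusion h).toRingHom.toAlgebra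
  have : IsScalarTower ℚ E E' := IsScalarTower.of_algebraMap_eq fun x => rfl
  have : FiniteDimensional E E' := FiniteDimensional.right ℚ E E'
  have : Algebra.IsAlgebraic E E' := inferInstance
  obtain ⟨τ, hτ⟩ := IsAlgClosed.surjective_domRestrict_of_isAlgebraic (K := ℚ) (L := E) (M := ℂ)
    (E := E') σ
  refine ⟨τ, fun x hx => ?_⟩
  have h1 := congrArg (fun g : E →ₐ[ℚ] ℂ => g ⟨x, hx⟩) hτ
  exact h1

/-- the commutation with a finite set of further elements -/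
lemma cm_ext {c : ℂ} (hc : IsCM c) (E : IntermediateField ℚ ℂ) (hE : FiniteDimensional ℚ E)
    (σ : E →ₐ[ℚ] ℂ) (h : c ∈ E) (h' : starRingEnd ℂ c ∈ E) :
    σ ⟨starRingEnd ℂ c, h'⟩ = starRingEnd ℂ (σ ⟨c, h⟩) := hc E hE h h' σ

lemma conj_alg {c : ℂ} (hc : IsAlgebraic ℚ c) : IsAlgebraic ℚ (starRingEnd ℂ c) := by
  obtain ⟨p, hp0, hp⟩ := hc
  refine ⟨p, hp0, ?_⟩
  have h1 := congrArg (starRingEnd ℂ) hp
  rw [map_zero, aeval_def, hom_eval₂] at h1
  have e : (starRingEnd ℂ).comp (algebraMap ℚ ℂ) = algebraMap ℚ ℂ := Subsingleton.elim _ _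
  rw [e] at h1
  exact h1

lemma cm_two {c d : ℂ} (hc : IsCM c) (hd : IsCM d) (ac : IsAlgebraic ℚ c) (ad : IsAlgebraic ℚ d) :
    IsCM (c + d) ∧ IsCM (c * d) := by
  have key : ∀ (E : IntermediateField ℚ ℂ) (_ : FiniteDimensional ℚ E) (σ : E →ₐ[ℚ] ℂ),
      ∃ (E' : IntermediateField ℚ ℂ) (_ : FiniteDimensional ℚ E') (hE : E ≤ E')
        (σ' : E' →ₐ[ℚ] ℂ), (∀ (x : ℂ) (hx : x ∈ E), σ' ⟨x, hE hx⟩ = σ ⟨x, hx⟩) ∧
        c ∈ E' ∧ d ∈ E' ∧ starRingEnd ℂ c ∈ E' ∧ starRingEnd ℂ d ∈ E' := by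
    intro E hE σ
    set T : Set ℂ := {c, d, starRingEnd ℂ c, starRingEnd ℂ d} with hT
    have hTf : T.Finite := by simp [hT]
    have : Finite T := hTf.to_subtype
    have : FiniteDimensional ℚ (adjoin ℚ T) := finiteDimensional_adjoin fun z hz => by
      rcases hz with rfl | rfl | rfl | hz
      · exact ac.isIntegral
      · exact ad.isIntegral
      · exact (conj_alg ac).isIntegral
      · rw [Set.mem_singleton_iff] at hz
        subst hz
        exact (conj_alg ad).isIntegral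
    have h3 : FiniteDimensional ℚ (E ⊔ adjoin ℚ T : IntermediateField ℚ ℂ) :=
      IntermediateField.finiteDimensional_sup E (adjoin ℚ T)
    obtain ⟨σ', hσ'⟩ := extend (le_sup_left : E ≤ E ⊔ adjoin ℚ T) σ
    have hle : adjoin ℚ T ≤ E ⊔ adjoin ℚ T := le_sup_right
    exact ⟨E ⊔ adjoin ℚ T, h3, le_sup_left, σ', hσ', hle (subset_adjoin ℚ T (by simp [hT])),
      hle (subset_adjoin ℚ T (by simp [hT])), hle (subset_adjoin ℚ T (by simp [hT])),
      hle (subset_adjoin ℚ T (by simp [hT]))⟩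
  constructor
  · intro E hE h h' σ
    obtain ⟨E', hE', hle, σ', hσ', m1, m2, m3, m4⟩ := key E hE σ
    rw [← hσ' _ h, ← hσ' _ h']
    have e1 : (⟨c + d, hle h⟩ : E') = ⟨c, m1⟩ + ⟨d, m2⟩ := rfl
    have e2 : (⟨starRingEnd ℂ (c + d), hle h'⟩ : E') =
        ⟨starRingEnd ℂ c, m3⟩ + ⟨starRingEnd ℂ d, m4⟩ := Subtype.ext (map_add _ _ _)
    rw [e1, e2, map_add, map_add, map_add, hc E' hE' m1 m3 σ', hd E' hE' m2 m4 σ']
  · intro E hE h h' σ
    obtain ⟨E', hE', hle, σ', hσ', m1, m2, m3, m4⟩ := key E hE σ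
    rw [← hσ' _ h, ← hσ' _ h']
    have e1 : (⟨c * d, hle h⟩ : E') = ⟨c, m1⟩ * ⟨d, m2⟩ := rfl
    have e2 : (⟨starRingEnd ℂ (c * d), hle h'⟩ : E') =
        ⟨starRingEnd ℂ c, m3⟩ * ⟨starRingEnd ℂ d, m4⟩ := Subtype.ext (map_mul _ _ _)
    rw [e1, e2, map_mul, map_mul, map_mul, hc E' hE' m1 m3 σ', hd E' hE' m2 m4 σ']

lemma cm_neg {c : ℂ} (hc : IsCM c) : IsCM (-c) := by
  intro E hE h h' σ
  have m1 : c ∈ E := by simpa using E.neg_mem h
  have m2 : starRingEnd ℂ c ∈ E := by simpa using E.neg_mem h'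
  have e1 : (⟨-c, h⟩ : E) = -⟨c, m1⟩ := rfl
  have e2 : (⟨starRingEnd ℂ (-c), h'⟩ : E) = -⟨starRingEnd ℂ c, m2⟩ := Subtype.ext (map_neg _ _)
  rw [e1, e2, map_neg, map_neg, map_neg, hc E hE m1 m2 σ]

/-- totally real numbers -/
lemma cm_real {c : ℂ} (hc : ∀ z : ℂ, aeval z (minpoly ℚ c) = 0 → z.im = 0) : IsCM c := by
  have hreal : ∀ z : ℂ, aeval z (minpoly ℚ c) = 0 → starRingEnd ℂ z = z := fun z hz =>
    Complex.conj_eq_iff_im.2 (hc z hz)
  intro E hE h h' σ
  have h1 : starRingEnd ℂ c = c := hreal c (minpoly.aeval ℚ c)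
  have e : (⟨starRingEnd ℂ c, h'⟩ : E) = ⟨c, h⟩ := Subtype.ext h1
  rw [e]
  have h2 : aeval (σ ⟨c, h⟩) (minpoly ℚ c) = 0 := by
    have h3 : aeval (⟨c, h⟩ : E) (minpoly ℚ c) = 0 := by
      have h4 : aeval (algebraMap E ℂ ⟨c, h⟩) (minpoly ℚ c) = 0 := minpoly.aeval ℚ c
      rw [aeval_algebraMap_apply] at h4
      exact (algebraMap E ℂ).injective (by rw [h4, map_zero])
    rw [aeval_algHom_apply, h3, map_zero]
  exact (hreal _ h2).symm

/-- roots of unity -/
lemma cm_root {ζ : ℂ} {n : ℕ} (hn : 0 < n) (h : ζ ^ n = 1) : IsCM ζ := by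
  have key : ∀ z : ℂ, z ^ n = 1 → starRingEnd ℂ z = z⁻¹ := by
    intro z hz
    have h1 : ‖z‖ = 1 := by
      have h2 : ‖z‖ ^ n = 1 := by rw [← norm_pow, hz, norm_one]
      exact (pow_eq_one_iff_of_nonneg (norm_nonneg _) hn.ne').1 h2
    have h3 : z ≠ 0 := by
      rintro rfl
      simp at h1
    apply eq_inv_of_mul_eq_one_left
    rw [mul_comm, Complex.mul_conj, Complex.normSq_eq_norm_sq, h1]
    simp
  intro E hE m m' σ
  have e : (⟨starRingEnd ℂ ζ, m'⟩ : E) = (⟨ζ, m⟩ : E)⁻¹ := Subtype.ext (key ζ h)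
  rw [e, map_inv₀]
  have h1 : (σ ⟨ζ, m⟩) ^ n = 1 := by
    rw [← map_pow]
    have h2 : (⟨ζ, m⟩ : E) ^ n = 1 := Subtype.ext h
    rw [h2, map_one]
  exact (key _ h1).symm

lemma PP_coeff_one (R : Multiset ℂ) (hR : ∀ a ∈ R, a ≠ 0) :
    (PP R).coeff 1 = -((PP R).coeff 0 * (R.map (·⁻¹)).sum) := by
  induction R using Multiset.induction_on with
  | empty => simp [PP, coeff_one]
  | cons a s ih =>
    have ha : a ≠ 0 := hR a (Multiset.mem_cons_self _ _)
    have ih' := ih fun b hb => hR b (Multiset.mem_cons_of_mem hb)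
    rw [PP_cons, sub_mul, coeff_sub, coeff_sub, coeff_C_mul, coeff_C_mul, coeff_X_mul_zero, ih',
      Multiset.map_cons, Multiset.sum_cons]
    have h1 : (X * PP s).coeff 1 = (PP s).coeff 0 := coeff_X_mul (PP s) 0
    rw [h1]
    field_simp
    ring

/-- relative traces -/
theorem trace_form (L : IntermediateField ℚ ℂ) {α : ℂ} (hα : IsAlgebraic ℚ α) (h0 : α ≠ 0)
    (hT : IsCM ((minpoly L α).aroots ℂ).sum)
    (hne : (((minpoly L α).aroots ℂ).map (·⁻¹)).sum ≠
      starRingEnd ℂ ((minpoly L α).aroots ℂ).sum) :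
    ∃ k : ℕ, 1 ≤ k ∧ k ≤ (minpoly L α).natDegree ∧
      (∀ j, 1 ≤ j → j ≤ k →
        IsCM (((minpoly L α).coeff ((minpoly L α).natDegree - j) : L) : ℂ)) ∧
      (((minpoly L α).coeff k : L) : ℂ) ≠
        starRingEnd ℂ (((minpoly L α).coeff ((minpoly L α).natDegree - k) : L) : ℂ) *
          (((minpoly L α).coeff 0 : L) : ℂ) := by
  have hαL : IsIntegral L α := hα.isIntegral.tower_top
  set pL := minpoly L α with hpL
  have hpm : pL.Monic := minpoly.monic hαL
  have hD : 1 ≤ pL.natDegree := minpoly.natDegree_pos hαL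
  have hpCm : (pL.map (algebraMap L ℂ)).Monic := hpm.map _
  have hR : pL.aroots ℂ = (pL.map (algebraMap L ℂ)).roots := rfl
  set RP := (pL.map (algebraMap L ℂ)).roots with hRP
  have hPP : pL.map (algebraMap L ℂ) = PP RP := (IsAlgClosed.splits _).eq_prod_roots_of_monic hpCm
  have hcard : Multiset.card RP = pL.natDegree := by
    rw [← PP_natDegree, ← hPP, hpm.natDegree_map]
  have hco : ∀ i, ((pL.coeff i : L) : ℂ) = (PP RP).coeff i := by
    intro i
    rw [← hPP, coeff_map]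
    rfl
  have hirr : Irreducible pL := minpoly.irreducible hαL
  have hne0 : ∀ z ∈ RP, z ≠ 0 := by
    rintro z hz rfl
    have h1 : (PP RP).coeff 0 = 0 := by
      rw [← hPP, coeff_zero_eq_eval_zero]
      exact (mem_roots hpCm.ne_zero).1 hz
    rw [← hco] at h1
    have h2 : pL.coeff 0 = 0 := Subtype.ext h1
    exact h0 ((minpoly.coeff_zero_eq_zero hαL).1 h2)
  rw [hR] at hT hne
  have htr : (PP RP).coeff (pL.natDegree - 1) = -RP.sum := by
    rw [← hcard]
    exact multiset_prod_X_sub_C_coeff_card_pred _ (by omega)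
  refine ⟨1, le_rfl, hD, ?_, ?_⟩
  · intro j h1 h2
    obtain rfl : j = 1 := by omega
    rw [hco, htr]
    exact cm_neg hT
  · rw [hco, hco, hco, htr, PP_coeff_one _ hne0, map_neg, neg_mul]
    intro h
    have h3 := neg_injective h
    have h4 : (PP RP).coeff 0 ≠ 0 := by
      intro h5
      rw [← hco] at h5
      exact h0 ((minpoly.coeff_zero_eq_zero hαL).1 (Subtype.ext h5))
    apply hne
    rw [mul_comm] at h3
    exact mul_right_cancel₀ h4 h3

/-- the multiplicative form -/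
theorem mul_form {φ w M N D : ℝ} (hφ : 0 < φ) (hw : 0 < w) (hM : 0 < M)
    (h : N * ((1 + qw) * Real.log φ) + 2 * qw * (D * Real.log w) ≤
      2 * (1 + qw) * (D * Real.log M)) :
    φ ^ (N / 2) * w ^ ((5 - Real.sqrt 5) / 10 * D) ≤ M ^ D := by
  have hq : qw / (1 + qw) = (5 - Real.sqrt 5) / 10 := by
    have h5 : Real.sqrt 5 ^ 2 = 5 := Real.sq_sqrt (by norm_num)
    have h50 : 0 < Real.sqrt 5 := Real.sqrt_pos.2 (by norm_num)
    have hq : qw = (3 - Real.sqrt 5) / 2 := by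
      unfold qw
      rw [Real.inv_goldenRatio, Real.goldenConj]
      ring
    rw [hq, div_eq_div_iff (by nlinarith) (by norm_num)]
    nlinarith
  rw [← Real.log_le_log_iff (mul_pos (Real.rpow_pos_of_pos hφ _) (Real.rpow_pos_of_pos hw _))
    (Real.rpow_pos_of_pos hM _), Real.log_mul (Real.rpow_pos_of_pos hφ _).ne'
    (Real.rpow_pos_of_pos hw _).ne', Real.log_rpow hφ, Real.log_rpow hw, Real.log_rpow hM, ← hq]
  have hq1 : 0 < 1 + qw := by linarith [qw_pos]
  have h2 : 2 * (1 + qw) * (N / 2 * Real.log φ + qw / (1 + qw) * D * Real.log w) ≤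
      2 * (1 + qw) * (D * Real.log M) := by
    have e : 2 * (1 + qw) * (N / 2 * Real.log φ + qw / (1 + qw) * D * Real.log w) =
        N * ((1 + qw) * Real.log φ) + 2 * qw * (D * Real.log w) := by
      field_simp
    rw [e]; exact h
  exact le_of_mul_le_mul_left h2 (by positivity)



/-- the coefficients of the minimal polynomial are algebraic -/
lemma coeff_alg (L : IntermediateField ℚ ℂ) {α : ℂ} (hα : IsAlgebraic ℚ α) (i : ℕ) :
    IsAlgebraic ℚ (((minpoly L α).coeff i : L) : ℂ) := by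
  have hαL : IsIntegral L α := hα.isIntegral.tower_top
  set pL := minpoly L α with hpL
  have hpm : pL.Monic := minpoly.monic hαL
  have hPP : pL.map (algebraMap L ℂ) = ((pL.map (algebraMap L ℂ)).roots.map
      (fun a => X - C a)).prod := (IsAlgClosed.splits _).eq_prod_roots_of_monic (hpm.map _)
  have hroots : ∀ z ∈ (pL.map (algebraMap L ℂ)).roots, z ∈ algebraicClosure ℚ ℂ := by
    intro z hz
    have h1 : aeval z pL = 0 := by
      have h3 := (mem_roots (hpm.map (algebraMap L ℂ)).ne_zero).1 hz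
      rw [IsRoot.def, eval_map_algebraMap] at h3
      exact h3
    have h2 : pL ∣ (minpoly ℚ α).map (algebraMap ℚ L) := minpoly.dvd_map_of_isScalarTower ℚ L α
    obtain ⟨q, hq⟩ := h2
    have h3 : aeval z (minpoly ℚ α) = 0 := by
      rw [← aeval_map_algebraMap L, hq, map_mul, h1, zero_mul]
    exact (mem_algebraicClosure_iff).2 ⟨minpoly ℚ α, minpoly.ne_zero hα.isIntegral, h3⟩
  obtain ⟨S, hS⟩ := exists_lift (algebraicClosure ℚ ℂ) _ hroots
  have h1 : (PS S).map (algebraMap (algebraicClosure ℚ ℂ) ℂ) = pL.map (algebraMap L ℂ) := by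
    rw [PS_map, hPP]
    unfold PS
    rw [← hS]
    rfl
  have h2 : (((PS S).coeff i : algebraicClosure ℚ ℂ) : ℂ) = ((pL.coeff i : L) : ℂ) := by
    have h3 := congrArg (fun q : ℂ[X] => q.coeff i) h1
    simp only [coeff_map] at h3
    exact h3
  rw [← h2]
  exact (mem_algebraicClosure_iff).1 (SetLike.coe_mem _)

end Pool.Agent.X115.RelC
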